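import Pool.Agent.Helper65.KG.Goals

/-!
# Project KG (MP_20ee5e_ag), packet NM8: the numerical condition for `N = 8`
-/

set_option autoImplicit false

namespace Pool.Agent.Helper38.KG.NM8

open Pool.Agent.Helper70.KN Pool.Agent.Helper65.KG

theorem poly (t : ℝ) (ht : 0 ≤ t) :
    0 ≤ t ^ 7 + t ^ 6 + t ^ 5 + t ^ 4 + t ^ 3 + t ^ 2 - 2 / 3 * t + 11 / 75 := by
  have h2 : 0 ≤ (t - 1 / 3) ^ 2 := sq_nonneg _
  have h3 : 0 ≤ t ^ 7 + t ^ 6 + t ^ 5 + t ^ 4 + t ^ 3 := by positivity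
  nlinarith

theorem t : S_NM8 := by
  obtain ⟨h0, h1, h2⟩ := pKP 8 (by norm_num)
  refine ⟨63 / 50, 5 / 12, by norm_num, ?_, ?_, ?_⟩
  · intro σ hσ
    rcases eq_or_lt_of_le hσ with h3 | h3
    · rw [← h3, h0]
      norm_num
    · rcases le_total σ 2 with h4 | h4
      · rw [h1 σ h3 h4, le_div_iff₀ h3]
        have h5 := poly (1 - σ / 2) (by linarith)
        have h6 := mul_nonneg (show 0 ≤ σ by linarith) h5
        nlinarith
      · rw [h2 σ h4, le_div_iff₀ h3]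
        nlinarith [sq_nonneg (σ - 63 / 50 * (6 / 5))]
  · norm_num [th]
  · norm_num

end Pool.Agent.Helper38.KG.NM8
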